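import Pool.Agent.H43.PS.Targets

/-!
# Row SDP of the board psd: the main lemma
-/

set_option autoImplicit false

namespace H54.PS

open Matrix Finset H43.PS

lemma av_mono {X : Type} [Fintype X] {f g : X → ℝ} (h : ∀ x, f x ≤ g x) : av f ≤ av g := by
  unfold av
  exact mul_le_mul_of_nonneg_left (Finset.sum_le_sum fun x _ => h x)
    (inv_nonneg.2 (Nat.cast_nonneg _))

lemma av_nonneg {X : Type} [Fintype X] {f : X → ℝ} (h : ∀ x, 0 ≤ f x) : 0 ≤ av f := by
  unfold av
  exact mul_nonneg (inv_nonneg.2 (Nat.cast_nonneg _)) (Finset.sum_nonneg fun x _ => h x)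

lemma av_mul_left {X : Type} [Fintype X] (c : ℝ) (f : X → ℝ) :
    av (fun x => c * f x) = c * av f := by
  unfold av
  rw [← Finset.mul_sum]
  ring

lemma av_add {X : Type} [Fintype X] (f g : X → ℝ) :
    av (fun x => f x + g x) = av f + av g := by
  unfold av
  rw [Finset.sum_add_distrib]
  ring

lemma av_neg {X : Type} [Fintype X] (f : X → ℝ) :
    av (fun x => - f x) = - av f := by
  unfold av
  rw [Finset.sum_neg_distrib]
  ring

lemma av_prod {X Y : Type} [Fintype X] [Fintype Y] (f : X × Y → ℝ) :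
    av f = av (fun y => av (fun x => f (x, y))) := by
  unfold av
  rw [Fintype.card_prod, Fintype.sum_prod_type_right, ← Finset.mul_sum]
  push_cast
  rw [mul_inv]
  ring

lemma av_comm {X Y : Type} [Fintype X] [Fintype Y] (f : X → Y → ℝ) :
    av (fun x => av (fun y => f x y)) = av (fun y => av (fun x => f x y)) := by
  unfold av
  rw [← Finset.mul_sum, ← Finset.mul_sum, Finset.sum_comm]
  ring

lemma av_sqrt {X : Type} [Fintype X] {Y Z : X → ℝ} (hY : ∀ x, 0 ≤ Y x) (hZ : ∀ x, 0 ≤ Z x) :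
    av (fun x => Real.sqrt (Y x * Z x)) ≤ Real.sqrt (av Y * av Z) := by
  apply Real.le_sqrt_of_sq_le
  have h1 : (∑ x, Real.sqrt (Y x * Z x)) ^ 2 ≤ (∑ x, Y x) * ∑ x, Z x := by
    have h2 := Finset.sum_mul_sq_le_sq_mul_sq (Finset.univ : Finset X)
      (fun x => Real.sqrt (Y x)) (fun x => Real.sqrt (Z x))
    have e1 : ∀ x, Real.sqrt (Y x) * Real.sqrt (Z x) = Real.sqrt (Y x * Z x) := fun x =>
      (Real.sqrt_mul (hY x) (Z x)).symm
    have e2 : ∀ x, Real.sqrt (Y x) ^ 2 = Y x := fun x => Real.sq_sqrt (hY x)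
    have e3 : ∀ x, Real.sqrt (Z x) ^ 2 = Z x := fun x => Real.sq_sqrt (hZ x)
    simp only [e1, e2, e3] at h2
    exact h2
  unfold av
  have h3 : (0 : ℝ) ≤ ((Fintype.card X : ℝ)⁻¹) ^ 2 := sq_nonneg _
  calc ((Fintype.card X : ℝ)⁻¹ * ∑ x, Real.sqrt (Y x * Z x)) ^ 2
      = ((Fintype.card X : ℝ)⁻¹) ^ 2 * (∑ x, Real.sqrt (Y x * Z x)) ^ 2 := by ring
    _ ≤ ((Fintype.card X : ℝ)⁻¹) ^ 2 * ((∑ x, Y x) * ∑ x, Z x) :=
        mul_le_mul_of_nonneg_left h1 h3
    _ = _ := by ring

/-- the power mean -/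
lemma av_rpow {X : Type} [Fintype X] [Nonempty X] {f : X → ℝ} (hf : ∀ x, 0 ≤ f x) {p : ℝ}
    (hp : 1 < p) : av (fun x => f x ^ (1 / p)) ≤ (av f) ^ (1 / p) := by
  have hc : (0 : ℝ) < Fintype.card X := by exact_mod_cast Fintype.card_pos
  have hp0 : (0 : ℝ) < p := lt_trans zero_lt_one hp
  have h := Real.arith_mean_le_rpow_mean (Finset.univ : Finset X)
    (fun _ => (Fintype.card X : ℝ)⁻¹) (fun x => f x ^ (1 / p))
    (fun _ _ => inv_nonneg.2 hc.le)
    (by rw [Finset.sum_const, Finset.card_univ, nsmul_eq_mul, mul_inv_cancel₀ hc.ne'])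
    (fun x _ => Real.rpow_nonneg (hf x) _) hp.le
  have e : ∀ x, (f x ^ (1 / p)) ^ p = f x := by
    intro x
    rw [← Real.rpow_mul (hf x), one_div, inv_mul_cancel₀ hp0.ne', Real.rpow_one]
  simp only [e, ← Finset.mul_sum] at h
  unfold av
  exact h

lemma av_ind {Θ : Type} [Fintype Θ] [DecidableEq Θ] (hΘ : 0 < Fintype.card Θ) {N q : ℕ}
    (a : Fin N → Fin q → Θ) (b : Fin N → Fin q) (F : (Fin N → Θ) → ℝ) :
    av (fun z => ind a b z * F z) = F (fun i => a i (b i)) := by
  have hQ : (0 : ℝ) < Fintype.card Θ := by exact_mod_cast hΘ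
  have h1 : ∀ z : Fin N → Θ, ind a b z =
      if z = (fun i => a i (b i)) then (Fintype.card Θ : ℝ) ^ N else 0 := by
    intro z
    unfold ind
    rw [Finset.prod_ite_zero]
    by_cases hz : z = (fun i => a i (b i))
    · rw [if_pos (fun i _ => by rw [hz]), if_pos hz]
      simp
    · rw [if_neg, if_neg hz]
      intro h
      exact hz (funext fun i => (h i (Finset.mem_univ i)).symm)
  unfold av
  have h2 : ∑ z, ind a b z * F z = (Fintype.card Θ : ℝ) ^ N * F (fun i => a i (b i)) := by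
    rw [Finset.sum_eq_single (fun i => a i (b i))]
    · rw [h1, if_pos rfl]
    · intro z _ hz
      rw [h1, if_neg hz, zero_mul]
    · intro h
      exact absurd (Finset.mem_univ _) h
  rw [h2, Fintype.card_fun, Fintype.card_fin]
  push_cast
  rw [← mul_assoc, inv_mul_cancel₀ (pow_ne_zero _ hQ.ne'), one_mul]

lemma sum4 {A B C E : Type} [Fintype A] [Fintype B] [Fintype C] [Fintype E]
    (T : A → B → C → E → ℝ) :
    ∑ u, ∑ v, ∑ x, ∑ y, T u v x y = ∑ x, ∑ y, ∑ u, ∑ v, T u v x y := by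
  calc ∑ u, ∑ v, ∑ x, ∑ y, T u v x y = ∑ u, ∑ x, ∑ v, ∑ y, T u v x y :=
        Finset.sum_congr rfl fun u _ => Finset.sum_comm
    _ = ∑ x, ∑ u, ∑ v, ∑ y, T u v x y := Finset.sum_comm
    _ = ∑ x, ∑ u, ∑ y, ∑ v, T u v x y :=
        Finset.sum_congr rfl fun x _ => Finset.sum_congr rfl fun u _ => Finset.sum_comm
    _ = ∑ x, ∑ y, ∑ u, ∑ v, T u v x y := Finset.sum_congr rfl fun x _ => Finset.sum_comm

/-- the main identity -/
lemma ident {Θ ι : Type} [Fintype Θ] [DecidableEq Θ] [Fintype ι] [DecidableEq ι]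
    {N q : ℕ} (σ : ℝ) (P : (Fin N → Fin q → Θ) → Matrix ι ι ℝ) (Sb : Matrix ι ι ℝ)
    (b : Fin N → Fin q) (z : Fin N → Θ)
    (G : Matrix ((Fin N → Option Θ) × ι) ((Fin N → Option Θ) × ι) ℝ)
    (hG : ∀ x y, av (fun a => ind a b z * P a x y) =
      ∑ u, ∑ u', cz σ z u * cz σ z u' * G (u, x) (u', y))
    (μ : Type) [Fintype μ] (w : (Fin N → Option Θ) → μ → ℝ)
    (hw : ∀ u u', ∑ x, ∑ y, G (u, x) (u', y) * Sb y x = ∑ m, w u m * w u' m) :
    ∑ m, (∑ u, cz σ z u * w u m) ^ 2 = av (fun a => ind a b z * (P a * Sb).trace) := by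
  have hL : ∑ m, (∑ u, cz σ z u * w u m) ^ 2 =
      ∑ u, ∑ u', cz σ z u * cz σ z u' * ∑ m, w u m * w u' m := by
    have h1 : ∀ m, (∑ u, cz σ z u * w u m) ^ 2 =
        ∑ u, ∑ u', cz σ z u * cz σ z u' * (w u m * w u' m) := by
      intro m
      rw [sq, Finset.sum_mul_sum]
      refine Finset.sum_congr rfl fun u _ => Finset.sum_congr rfl fun u' _ => ?_
      ring
    rw [Finset.sum_congr rfl fun m _ => h1 m, Finset.sum_comm]
    refine Finset.sum_congr rfl fun u _ => ?_
    rw [Finset.sum_comm]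
    refine Finset.sum_congr rfl fun u' _ => ?_
    rw [Finset.mul_sum]
  have hR : av (fun a => ind a b z * (P a * Sb).trace) =
      ∑ x, ∑ y, (av (fun a => ind a b z * P a x y)) * Sb y x := by
    unfold av
    have h2 : ∀ a : Fin N → Fin q → Θ, ind a b z * (P a * Sb).trace =
        ∑ x, ∑ y, ind a b z * P a x y * Sb y x := by
      intro a
      rw [Matrix.trace, Finset.mul_sum]
      refine Finset.sum_congr rfl fun x _ => ?_
      rw [Matrix.diag_apply, Matrix.mul_apply, Finset.mul_sum]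
      refine Finset.sum_congr rfl fun y _ => ?_
      ring
    rw [Finset.sum_congr rfl fun a _ => h2 a, Finset.sum_comm, Finset.mul_sum]
    refine Finset.sum_congr rfl fun x _ => ?_
    rw [Finset.sum_comm, Finset.mul_sum]
    refine Finset.sum_congr rfl fun y _ => ?_
    rw [← Finset.sum_mul]
    ring
  rw [hL, hR]
  have h3 : ∑ u, ∑ u', cz σ z u * cz σ z u' * ∑ m, w u m * w u' m =
      ∑ u, ∑ u', ∑ x, ∑ y, cz σ z u * cz σ z u' * G (u, x) (u', y) * Sb y x := by
    refine Finset.sum_congr rfl fun u _ => Finset.sum_congr rfl fun u' _ => ?_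
    rw [← hw, Finset.mul_sum]
    refine Finset.sum_congr rfl fun x _ => ?_
    rw [Finset.mul_sum]
    refine Finset.sum_congr rfl fun y _ => ?_
    ring
  rw [h3, sum4]
  refine Finset.sum_congr rfl fun x _ => Finset.sum_congr rfl fun y _ => ?_
  rw [hG, Finset.sum_mul]
  refine Finset.sum_congr rfl fun u _ => ?_
  rw [Finset.sum_mul]

theorem SDP (hDEC : T_DEC) (hVEC : T_VEC) (hVLM : T_VLM) (hTRP : T_TRP) (hNNG : T_NNG) :
    T_SDP := by
  intro Θ _ _ p σ hp1 hp2 hσ hΘ N q h hq ι _ _ P S D M κ₀ hP hS hSt hD hPos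
  have hσ0 : 0 < σ := lt_of_lt_of_le zero_lt_one hσ
  have hp0 : (0 : ℝ) < p := lt_trans zero_lt_one hp1
  haveI hΘn : Nonempty Θ := Fintype.card_pos_iff.1 hΘ
  haveI hqn : Nonempty (Fin q) := ⟨⟨0, hq⟩⟩
  obtain ⟨G, hG1, hG2, hG3⟩ := hDEC Θ p σ hp1 hp2 hσ0 hΘ N q hq ι P hP
  have hM : 0 ≤ M := (abs_nonneg _).trans (hD (fun _ => Classical.choice hΘn))
  have hκ : 0 ≤ κ₀ :=
    (hS (fun _ => Classical.choice hqn)).trace_nonneg.trans (hSt _)
  -- the quantities
  set C : ℝ := 2 ^ N * (σ⁻¹) ^ (2 * (h + 1)) with hC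
  have hC0 : 0 ≤ C := by positivity
  set Y : (Fin N → Fin q) → ℝ := fun b => av (fun a => (P a * S b).trace) with hY
  set Xb : (Fin N → Fin q) → ℝ := fun b => C * ((G b).trace * κ₀) with hXb
  have hXb0 : ∀ b, 0 ≤ Xb b := fun b =>
    mul_nonneg hC0 (mul_nonneg (hG1 b).trace_nonneg hκ)
  have hkey : ∀ b, 0 ≤ Y b ∧ - (M * (2 * Real.sqrt (Y b * Xb b) + Xb b)) ≤
      av (fun a : Fin N → Fin q → Θ => D (fun i => a i (b i)) * (P a * S b).trace) := by
    intro b
    obtain ⟨μ, iμ, w, hw1, hw2⟩ := hVEC (Fin N → Option Θ) ι (G b) (S b) (hG1 b) (hS b)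
    have hid : ∀ z, ∑ m, (∑ u, cz σ z u * w u m) ^ 2 =
        av (fun a => ind a b z * (P a * S b).trace) := fun z =>
      ident σ P (S b) b z (G b) (hG2 b z) μ w hw1
    have hF : ∀ F : (Fin N → Θ) → ℝ,
        av (fun z => F z * av (fun a => ind a b z * (P a * S b).trace)) =
        av (fun a : Fin N → Fin q → Θ => F (fun i => a i (b i)) * (P a * S b).trace) := by
      intro F
      have e1 : (fun z => F z * av (fun a => ind a b z * (P a * S b).trace)) =
          (fun z => av (fun a => F z * (ind a b z * (P a * S b).trace))) := by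
        funext z
        rw [av_mul_left]
      rw [e1, av_comm]
      have e2 : ∀ a : Fin N → Fin q → Θ,
          av (fun z => F z * (ind a b z * (P a * S b).trace)) =
          F (fun i => a i (b i)) * (P a * S b).trace := by
        intro a
        have e3 : (fun z => F z * (ind a b z * (P a * S b).trace)) =
            (fun z => (P a * S b).trace * (ind a b z * F z)) := by
          funext z
          ring
        rw [e3, av_mul_left, av_ind hΘ]
        ring
      simp only [e2]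
    have hY1 : av (fun z : Fin N → Θ => ∑ m, (∑ u, cz σ z u * w u m) ^ 2) = Y b := by
      have := hF (fun _ => 1)
      simp only [one_mul] at this
      simp only [hid, hY]
      exact this
    have hY0 : 0 ≤ Y b := by
      rw [← hY1]
      exact av_nonneg fun z => Finset.sum_nonneg fun m _ => sq_nonneg _
    refine ⟨hY0, ?_⟩
    have hwX : 2 ^ N * (σ⁻¹) ^ (2 * (h + 1)) * ∑ u, ∑ m, w u m ^ 2 ≤ Xb b := by
      refine mul_le_mul_of_nonneg_left (hw2.trans ?_) hC0
      exact mul_le_mul_of_nonneg_left (hSt b) (hG1 b).trace_nonneg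
    have hv := hVLM Θ N h σ M μ w D (Xb b) hσ hΘ hD hPos hwX
    rw [hY1] at hv
    refine hv.trans (le_of_eq ?_)
    rw [← hF D]
    simp only [hid]
  -- averages over b
  have hYY : av (fun ab : (Fin N → Fin q → Θ) × (Fin N → Fin q) =>
      (P ab.1 * S ab.2).trace) = av Y := by
    rw [av_prod]
  have hDD : av (fun ab : (Fin N → Fin q → Θ) × (Fin N → Fin q) =>
      D (fun i => ab.1 i (ab.2 i)) * (P ab.1 * S ab.2).trace) =
      av (fun b : Fin N → Fin q => av (fun a : Fin N → Fin q → Θ =>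
        D (fun i => a i (b i)) * (P a * S b).trace)) := by
    rw [av_prod]
  rw [hYY, hDD]
  set XV : ℝ := XX (Fintype.card Θ) q p σ (Fintype.card ι) κ₀
    (av (fun a => tp p (P a))) N h with hXV
  have hav : av Xb ≤ XV := by
    have h1 : av Xb = C * κ₀ * av (fun b => (G b).trace) := by
      rw [← av_mul_left]
      refine congrArg av ?_
      funext b
      simp only [hXb]
      ring
    rw [h1, hXV, XX, ← hC]
    refine mul_le_mul_of_nonneg_left ?_ (mul_nonneg hC0 hκ)
    have hcard : (Fintype.card ((Fin N → Option Θ) × ι) : ℝ) =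
        (Fintype.card ι : ℝ) * ((Fintype.card Θ : ℝ) + 1) ^ N := by
      rw [Fintype.card_prod, Fintype.card_fun, Fintype.card_option, Fintype.card_fin]
      push_cast
      ring
    have h2 : ∀ b, (G b).trace ≤
        ((Fintype.card ι : ℝ) * ((Fintype.card Θ : ℝ) + 1) ^ N) ^ (1 - 1 / p) *
          (tp p (G b)) ^ (1 / p) := by
      intro b
      rw [← hcard]
      exact (hTRP _ p (G b) hp1 (hG1 b)).1
    have h3 : ∀ b, 0 ≤ tp p (G b) := fun b => (hNNG _ (G b)).2 p (hG1 b)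
    calc av (fun b => (G b).trace) ≤ av (fun b =>
          ((Fintype.card ι : ℝ) * ((Fintype.card Θ : ℝ) + 1) ^ N) ^ (1 - 1 / p) *
          (tp p (G b)) ^ (1 / p)) := av_mono h2
      _ = ((Fintype.card ι : ℝ) * ((Fintype.card Θ : ℝ) + 1) ^ N) ^ (1 - 1 / p) *
          av (fun b => (tp p (G b)) ^ (1 / p)) := av_mul_left _ _
      _ ≤ ((Fintype.card ι : ℝ) * ((Fintype.card Θ : ℝ) + 1) ^ N) ^ (1 - 1 / p) *
          (av (fun b => tp p (G b))) ^ (1 / p) := by
          refine mul_le_mul_of_nonneg_left (av_rpow h3 hp1) ?_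
          exact Real.rpow_nonneg (by positivity) _
      _ ≤ _ := by
          refine mul_le_mul_of_nonneg_left ?_ (Real.rpow_nonneg (by positivity) _)
          exact Real.rpow_le_rpow (av_nonneg h3) hG3 (by positivity)
  have hav0 : 0 ≤ av Xb := av_nonneg hXb0
  have hY00 : 0 ≤ av Y := av_nonneg fun b => (hkey b).1
  have hs1 := av_sqrt (fun b => (hkey b).1) hXb0
  have hs2 : Real.sqrt (av Y * av Xb) ≤ Real.sqrt (av Y * XV) :=
    Real.sqrt_le_sqrt (mul_le_mul_of_nonneg_left hav hY00)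
  have hl : av (fun b => - (M * (2 * Real.sqrt (Y b * Xb b) + Xb b))) =
      - (M * (2 * av (fun b => Real.sqrt (Y b * Xb b)) + av Xb)) := by
    rw [av_neg, av_mul_left, av_add, av_mul_left]
  refine le_trans ?_ (av_mono fun b => (hkey b).2)
  rw [hl]
  have h5 : 2 * av (fun b => Real.sqrt (Y b * Xb b)) + av Xb ≤
      2 * Real.sqrt (av Y * XV) + XV := by
    linarith
  exact neg_le_neg (mul_le_mul_of_nonneg_left h5 hM)

end H54.PS
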